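import Pool.Agent.V5helper99.DC.Defs

set_option autoImplicit false

namespace DC99

open Module

theorem J15_coord {n : ℕ} (A : Finset (Fin n)) (m : Fin n) :
    (pt A : E n) m = if m ∈ A then (-1 : ℝ) else 1 := rfl

theorem J15_exists {n : ℕ} (hn : 3 ≤ n) (i : Fin n) :
    ∃ j k : Fin n, j ≠ i ∧ k ≠ i ∧ k ≠ j := by
  obtain ⟨j, hj⟩ : ∃ j : Fin n, j ∉ ({i} : Finset (Fin n)) := by
    by_contra h
    push Not at h
    have h1 : (Finset.univ : Finset (Fin n)) ⊆ {i} := fun x _ => h x
    have h2 := Finset.card_le_card h1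
    simp at h2
    omega
  obtain ⟨k, hk⟩ : ∃ k : Fin n, k ∉ ({i, j} : Finset (Fin n)) := by
    by_contra h
    push Not at h
    have h1 : (Finset.univ : Finset (Fin n)) ⊆ {i, j} := fun x _ => h x
    have h2 := Finset.card_le_card h1
    have h3 : ({i, j} : Finset (Fin n)).card ≤ 2 := Finset.card_le_two
    rw [Finset.card_univ, Fintype.card_fin] at h2
    omega
  refine ⟨j, k, ?_, ?_, ?_⟩
  · simpa using hj
  · intro h; apply hk; simp [h]
  · intro h; apply hk; simp [h]

theorem t_J15 (n : ℕ) (hn : 3 ≤ n) : (interior (dc n)).Nonempty := by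
  unfold dc
  rw [interior_convexHull_nonempty_iff_affineSpan_eq_top]
  set S : Set (E n) := {x | ∃ A : Finset (Fin n), Even A.card ∧ x = pt A} with hS
  have hmem : ∀ A : Finset (Fin n), Even A.card → pt A ∈ S := fun A hA => ⟨A, hA, rfl⟩
  have hne : S.Nonempty := ⟨pt ∅, hmem ∅ (by simp)⟩
  rw [AffineSubspace.affineSpan_eq_top_iff_vectorSpan_eq_top_of_nonempty ℝ (E n) (E n) hne]
  have hb : ∀ i : Fin n, (EuclideanSpace.single i (1 : ℝ) : E n) ∈ vectorSpan ℝ S := by
    intro i
    obtain ⟨j, k, hji, hki, hkj⟩ := J15_exists hn i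
    have h1 : pt ∅ - pt {i, j} ∈ vectorSpan ℝ S :=
      vsub_mem_vectorSpan ℝ (hmem _ (by simp)) (hmem _ (by rw [Finset.card_pair (Ne.symm hji)]; exact even_two))
    have h2 : pt {j, k} - pt {i, k} ∈ vectorSpan ℝ S :=
      vsub_mem_vectorSpan ℝ (hmem _ (by rw [Finset.card_pair (Ne.symm hkj)]; exact even_two))
        (hmem _ (by rw [Finset.card_pair (Ne.symm hki)]; exact even_two))
    have h3 : (EuclideanSpace.single i (1 : ℝ) : E n) =
        (1 / 4 : ℝ) • ((pt ∅ - pt {i, j}) + (pt {j, k} - pt {i, k})) := by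
      ext m
      rw [PiLp.smul_apply, PiLp.add_apply, PiLp.sub_apply, PiLp.sub_apply, J15_coord, J15_coord,
        J15_coord, J15_coord, EuclideanSpace.single_apply]
      simp only [Finset.mem_insert, Finset.mem_singleton, Finset.notMem_empty, if_false, smul_eq_mul]
      by_cases hmi : m = i
      · subst hmi
        simp only [true_or, if_true, Ne.symm hji, Ne.symm hki, false_or, if_false]
        norm_num
      · by_cases hmj : m = j
        · subst hmj
          simp only [hmi, true_or, or_true, if_true, Ne.symm hkj, or_false, if_false]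
          norm_num
        · by_cases hmk : m = k
          · subst hmk
            simp only [hmi, hmj, or_true, or_false, if_true, if_false]
            norm_num
          · simp only [hmi, hmj, hmk, or_false, if_false]
            norm_num
    rw [h3]
    exact Submodule.smul_mem _ _ (Submodule.add_mem _ h1 h2)
  rw [eq_top_iff]
  intro x _
  have hx : x = ∑ i, x i • (EuclideanSpace.single i (1 : ℝ) : E n) := by
    ext m
    rw [WithLp.ofLp_sum, Finset.sum_apply]
    simp [Pi.single_apply]
  rw [hx]
  exact Submodule.sum_mem _ (fun i _ => Submodule.smul_mem _ _ (hb i))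

end DC99
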